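import Mathlib.Combinatorics.SimpleGraph.Basic
import Mathlib.Logic.Equiv.Nat
import Pool.Agent.Lib.MP_ab18c1_co.Final

namespace Pool.Agent.Results.MP_ab18c1_co.Perturb

/-- A `k`-colouring of the edges of the complete graph on `V`. -/
def Colouring (V : Type) (k : ℕ) : Type := (⊤ : SimpleGraph V).edgeSet → Fin k

/-- `ψ` contains a copy of `(K, c)`: an injective map of vertices under which the image of every
edge has the colour of that edge. -/
def HasCopy {V : Type} {k : ℕ} (c : Colouring V k) (ψ : Colouring ℕ k) : Prop :=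
  ∃ f : V → ℕ, Function.Injective f ∧
    ∀ (e : (⊤ : SimpleGraph V).edgeSet) (e' : (⊤ : SimpleGraph ℕ).edgeSet),
      e'.1 = e.1.map f → ψ e' = c e

/-- `χ'` differs from `χ`, and every vertex lies in only finitely many recoloured edges. -/
def IsPerturbation {k : ℕ} (χ χ' : Colouring ℕ k) : Prop :=
  χ' ≠ χ ∧ ∀ v : ℕ, {e : (⊤ : SimpleGraph ℕ).edgeSet | v ∈ e.1 ∧ χ' e ≠ χ e}.Finite

open Classical in
noncomputable def toFun {V α : Type} (c : (⊤ : SimpleGraph V).edgeSet → α) (d : α) (x y : V) :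
    α :=
  if h : x ≠ y then c ⟨s(x, y), h⟩ else d

theorem toFun_ne {V α : Type} (c : (⊤ : SimpleGraph V).edgeSet → α) (d : α) {x y : V}
    (h : x ≠ y) : toFun c d x y = c ⟨s(x, y), h⟩ := dif_pos h

theorem toFun_symm {V α : Type} (c : (⊤ : SimpleGraph V).edgeSet → α) (d : α) (x y : V) :
    toFun c d x y = toFun c d y x := by
  by_cases h : x = y
  · rw [h]
  · rw [toFun_ne c d h, toFun_ne c d (Ne.symm h)]
    exact congrArg c (Subtype.ext Sym2.eq_swap)

theorem edge_eq {V : Type} (e : (⊤ : SimpleGraph V).edgeSet) :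
    ∃ (x y : V) (h : x ≠ y), e = ⟨s(x, y), h⟩ := by
  obtain ⟨e, he⟩ := e
  induction e using Sym2.ind with
  | _ x y => exact ⟨x, y, he, rfl⟩

open Pool.Agent.Lib.MP_ab18c1_co in
theorem result (k : ℕ) (hk : 3 ≤ k) (V : Type) [Finite V] (c : Colouring V k)
    (hc : Function.Surjective c) :
    ∃ χ : Colouring ℕ k, ¬ HasCopy c χ ∧ ∀ χ' : Colouring ℕ k, IsPerturbation χ χ' →
      HasCopy c χ' := by
  let d : Fin k := ⟨0, by omega⟩
  have : Nonempty (Fin k) := ⟨d⟩
  obtain ⟨g, g1, g2, g3⟩ := good_of_three (c := toFun c d) (toFun_symm c d) (fin_three hk)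
    (fun a => by
      obtain ⟨e, rfl⟩ := hc a
      obtain ⟨x, y, h, rfl⟩ := edge_eq e
      exact ⟨x, y, trivial, trivial, h, toFun_ne c d h⟩)
  let η : ℕ × ℕ ≃ ℕ := Nat.pairEquiv
  let χ : Colouring ℕ k := fun e =>
    Sym2.lift ⟨fun a b => g (η.symm a) (η.symm b), fun _ _ => g1 _ _⟩ e.1
  have hχ : ∀ (a b : ℕ) (h : a ≠ b), χ ⟨s(a, b), h⟩ = g (η.symm a) (η.symm b) := fun _ _ _ => rfl
  refine ⟨χ, ?_, fun χ' ⟨h1, h2⟩ => ?_⟩
  · rintro ⟨f, f1, f2⟩
    refine g2 ⟨fun x => η.symm (f x), fun x y _ _ hxy =>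
      ⟨fun e => hxy (f1 (η.symm.injective e)), ?_⟩⟩
    rw [toFun_ne c d hxy, ← hχ _ _ (f1.ne hxy)]
    exact f2 ⟨s(x, y), hxy⟩ ⟨s(f x, f y), f1.ne hxy⟩ rfl
  · have key : ∀ (p q : ℕ × ℕ) (h : p ≠ q), toFun χ' d (η p) (η q) =
        χ' ⟨s(η p, η q), η.injective.ne h⟩ ∧ g p q = χ ⟨s(η p, η q), η.injective.ne h⟩ :=
      fun p q h => ⟨toFun_ne χ' d _, by rw [hχ]; simp⟩
    obtain ⟨f, hf⟩ := g3 (fun p q => toFun χ' d (η p) (η q)) (fun _ _ => toFun_symm χ' d _ _)
      (by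
        obtain ⟨e, he⟩ := Function.ne_iff.1 h1
        obtain ⟨a, b, h, rfl⟩ := edge_eq e
        refine ⟨η.symm a, η.symm b, η.symm.injective.ne h, ?_⟩
        rw [Equiv.apply_symm_apply, Equiv.apply_symm_apply, toFun_ne χ' d h, ← hχ a b h]
        exact he)
      (fun p => by
        refine (((h2 (η p)).image Subtype.val).preimage (f := fun q => s(η p, η q))
          (fun q _ q' _ e => η.injective (Sym2.congr_right.1 e))).subset ?_
        rintro q ⟨q1, q2⟩
        refine ⟨⟨s(η p, η q), η.injective.ne q1.symm⟩, ⟨Sym2.mem_mk_left _ _, ?_⟩, rfl⟩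
        rw [← (key p q q1.symm).1, ← (key p q q1.symm).2]
        exact q2)
    refine ⟨fun x => η (f x), fun x y e => ?_, fun e e' he => ?_⟩
    · by_contra hxy
      exact (hf x y trivial trivial hxy).1 (η.injective e)
    · obtain ⟨x, y, hxy, rfl⟩ := edge_eq e
      obtain ⟨a, b⟩ := hf x y trivial trivial hxy
      rw [← toFun_ne c d hxy, ← b]
      show χ' e' = toFun χ' d (η (f x)) (η (f y))
      rw [(key _ _ a).1]
      exact congrArg χ' (Subtype.ext he)

end Pool.Agent.Results.MP_ab18c1_co.Perturb
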